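import Pool.Agent.Run7.h68.TG.Fin1

/-!
# Project TG, piece FIN (second part): the theorem

Adapted from `Run7/h875/TS/Fin2.lean` and `Fin3.lean` (helper875).
-/

set_option autoImplicit false
set_option linter.all false

open Polynomial IsDedekindDomain
open scoped Classical

namespace Run7.h68.TG

open Pool.Agent.N874.PP (Ov Ev Sq1)
open Pool.Agent.N352.PJ (IsGen Crd LocIm SelZero Fam GoodR Ht dsc)
open Run7.h875.TS (chi cd IsPC GSq irrD dg NRs uT sqf prD sqL sz Tr log_le_of log_lt_of stS laS Inv St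
  mem_prD mem_irrD prod_prD card_prD ndvd_div sub_card_le le_card' one_le_sqrt_pow)
open Run7.h784.TG

section St

variable {k : Type} [Field k] [Finite k] {g : ℕ} {f : k[X][X]}

theorem good_of_st {S : Finset k[X]} {u : k[X] → k[X]} {Y : k[X]} (h : St (dsc g f) S u Y) :
    GoodT g f S u where
  mon := fun P hP => (h.mem.1 hP).1
  irr := fun P hP => (h.mem.1 hP).2.1
  nd := fun P hP h1 => h.cop P (h.mem.1 hP).2.1 (h.mem.1 hP).2.2 h1
  nu := h.nu

end St

section one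

variable {k : Type} [Field k] [Finite k] {g N : ℕ} {r : k[X]} {f : k[X][X]}
  {K : Type} [Field K] [Algebra k[X] K] [IsFractionRing k[X] K] (pk : Pack k K g f)

/-- The rank. -/
noncomputable def phi (S : Finset k[X]) (u : k[X] → k[X]) : ℕ := psi pk.O K f pk.θ S u

theorem inv_phi (hREP : P_REP) (hGRP : P_GRP) (hCLSU : P_CLSU) (hf : Fm g N r f) :
    Inv (phi pk) (dsc g f) := by
  intro S u u' h
  refine psi_inv hREP hGRP hCLSU hf pk.gen ?_ ?_ ?_
  · exact ⟨fun P hP => (h P hP).1, fun P hP => (h P hP).2.1,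
      fun P hP h1 => (h P hP).2.2.1 h1, fun P hP => (h P hP).2.2.2.1⟩
  · exact ⟨fun P hP => (h P hP).1, fun P hP => (h P hP).2.1,
      fun P hP h1 => (h P hP).2.2.1 h1, fun P hP => (h P hP).2.2.2.2.1⟩
  · exact fun P hP => (h P hP).2.2.2.2.2

theorem A1 (hREP : P_REP) (hGRP : P_GRP) (hSTEP : P_STEP) (hKILL : P_KILL) (hLAST : P_LAST)
    (hf : Fm g N r f) (hFu : Full f) :
    ∃ c₀ C₀ : ℝ, 0 < c₀ ∧ 0 ≤ C₀ ∧ ∀ (S : Finset k[X]) (u : k[X] → k[X]) (Y : k[X]),
      St (dsc g f) S u Y → ∀ m : ℕ, 0 < m →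
        c₀ * (Nat.card k : ℝ) ^ m / m - C₀ * (1 + Y.natDegree) * √((Nat.card k : ℝ) ^ m) ≤
          ((stS (phi pk) (dsc g f) S u m).card : ℝ) := by
  obtain ⟨c₁, C₁, hc₁, h1⟩ := hKILL k g N r f hf hFu
  obtain ⟨c₂, C₂, hc₂, h2⟩ := hLAST k g N r f hf hFu
  obtain ⟨C₃, h3⟩ := (hREP k K pk.L pk.O g N r f pk.θ hf pk.gen).1
  refine ⟨min c₁ c₂, C₁ * (1 + C₃) + C₂ + 1, lt_min hc₁ hc₂, by positivity, ?_⟩
  intro S u Y hSt m hm
  set q : ℝ := (Nat.card k : ℝ) with hq
  have hq0 : 0 < q := by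
    rw [hq]
    exact_mod_cast (Finite.card_pos : 0 < Nat.card k)
  have hsq : 1 ≤ √(q ^ m) := one_le_sqrt_pow m
  have hSc : (S.card : ℝ) ≤ (1 + Y.natDegree) * √(q ^ m) := by
    have h4 : (S.card : ℝ) ≤ Y.natDegree := by exact_mod_cast hSt.card_le
    have h5 : (0 : ℝ) ≤ 1 + Y.natDegree := by positivity
    nlinarith
  have hm0 : (0 : ℝ) < m := by exact_mod_cast hm
  have hY0 : (0 : ℝ) ≤ (1 + Y.natDegree) * √(q ^ m) := by positivity
  by_cases hphi : phi pk S u = 0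
  · -- inert primes
    have h4 := h2 K pk.L pk.O pk.θ pk.gen ∅ (fun _ => True) (by simp) m hm
    rw [Finset.card_empty, pow_zero, mul_one] at h4
    have h5 : dg (∅ : Finset k[X]) = 0 := by simp [dg]
    rw [h5, Nat.cast_zero, add_zero, mul_one] at h4
    have h12 := (sub_le_sub_right h4 (S.card : ℝ)).trans
      (sub_card_le (B := stS (phi pk) (dsc g f) S u m) fun Q hQ1 hQS hQt => by
        have hQ2 := mem_irrD.1 hQ1
        unfold stS
        rw [Finset.mem_filter]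
        refine ⟨hQ1, hQS, hQt.1, ?_⟩
        have h8 : phi pk (insert Q S) (Function.update u Q 1) ≤ phi pk S u :=
          psi_inert hREP hGRP hSTEP hf pk.gen (good_of_st hSt) hQ2.1 hQ2.2.1 hQS hQt.1
            (fun h1 => hQ2.2.1.not_isUnit (isUnit_of_dvd_one h1)) hQt.2.1
        rw [hphi] at h8 ⊢
        omega)
    have h8 : min c₁ c₂ * q ^ m / m ≤ c₂ * q ^ m / m := by
      have := min_le_right c₁ c₂
      gcongr
    have h9 : (C₂ : ℝ) * √(q ^ m) ≤ C₂ * ((1 + Y.natDegree) * √(q ^ m)) := by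
      have : √(q ^ m) ≤ (1 + Y.natDegree) * √(q ^ m) := by
        have : (0 : ℝ) ≤ Y.natDegree := by positivity
        nlinarith
      gcongr
    have h10 : (0 : ℝ) ≤ C₁ * (1 + C₃) * ((1 + Y.natDegree) * √(q ^ m)) := by positivity
    have h11 : ((C₁ : ℝ) * (1 + C₃) + C₂ + 1) * (1 + Y.natDegree) * √(q ^ m) =
        C₁ * (1 + C₃) * ((1 + Y.natDegree) * √(q ^ m)) + C₂ * ((1 + Y.natDegree) * √(q ^ m)) +
          (1 + Y.natDegree) * √(q ^ m) := by ring
    linarith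
  · -- kill a class
    obtain ⟨α, z, hα, hnα, hnsα, hzα, hdα⟩ := exists_small (O := pk.O) hREP hGRP hf pk.gen
      h3 (good_of_st hSt) hphi
    rw [hSt.dg_eq] at hdα
    have h4 := h1 K pk.L pk.O pk.θ pk.gen α z (C₃ * (1 + Y.natDegree)) hα.ne hnα
      hnsα hzα hdα m hm
    have h12 := (sub_le_sub_right h4 (S.card : ℝ)).trans
      (sub_card_le (B := stS (phi pk) (dsc g f) S u m) fun Q hQ1 hQS hQp => by
        obtain ⟨hQd, hQn, hQα⟩ := hQp
        have hQ2 := mem_irrD.1 hQ1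
        have hQw : ¬ Q ∣ (1 : k[X]) := fun h1 => hQ2.2.1.not_isUnit (isUnit_of_dvd_one h1)
        unfold stS
        rw [Finset.mem_filter]
        refine ⟨hQ1, hQS, hQd, ?_⟩
        have h8 : phi pk (insert Q S) (Function.update u Q 1) + 1 ≤ phi pk S u :=
          psi_kill (O := pk.O) hREP hGRP hSTEP hf pk.gen (good_of_st hSt)
            hQ2.1 hQ2.2.1 hQS hQd hQw hQn hα hQα
        omega)
    have h8 : min c₁ c₂ * q ^ m / m ≤ c₁ * q ^ m / m := by
      have := min_le_left c₁ c₂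
      gcongr
    have h9 : (C₁ : ℝ) * (1 + ((C₃ * (1 + Y.natDegree) : ℕ) : ℝ)) * √(q ^ m) ≤
        C₁ * (1 + C₃) * ((1 + Y.natDegree) * √(q ^ m)) := by
      have h10 : ((C₃ * (1 + Y.natDegree) : ℕ) : ℝ) ≤ C₃ * (1 + Y.natDegree) := by
        push_cast
        exact le_rfl
      have h11 : 1 + ((C₃ * (1 + Y.natDegree) : ℕ) : ℝ) ≤ (1 + C₃) * (1 + Y.natDegree) := by
        have : (0 : ℝ) ≤ Y.natDegree := by positivity
        nlinarith
      calc (C₁ : ℝ) * (1 + ((C₃ * (1 + Y.natDegree) : ℕ) : ℝ)) * √(q ^ m) ≤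
          C₁ * ((1 + C₃) * (1 + Y.natDegree)) * √(q ^ m) := by gcongr
        _ = _ := by ring
    have h10 : (0 : ℝ) ≤ C₂ * ((1 + Y.natDegree) * √(q ^ m)) := by positivity
    have h11 : ((C₁ : ℝ) * (1 + C₃) + C₂ + 1) * (1 + Y.natDegree) * √(q ^ m) =
        C₁ * (1 + C₃) * ((1 + Y.natDegree) * √(q ^ m)) + C₂ * ((1 + Y.natDegree) * √(q ^ m)) +
          (1 + Y.natDegree) * √(q ^ m) := by ring
    linarith

theorem A2 (hREP : P_REP) (hGRP : P_GRP) (hSTEP : P_STEP) (hLAST : P_LAST)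
    (hf : Fm g N r f) (hFu : Full f) :
    ∃ c₀ C₀ : ℝ, 0 < c₀ ∧ 0 ≤ C₀ ∧ ∀ (S : Finset k[X]) (u : k[X] → k[X]) (Y : k[X]),
      St (dsc g f) S u Y → ∀ (η : k[X] → Prop) (m : ℕ), 0 < m →
        c₀ * (1 / 2) ^ S.card * (Nat.card k : ℝ) ^ m / m -
          C₀ * (1 + Y.natDegree) * √((Nat.card k : ℝ) ^ m) ≤
          ((laS (phi pk) (dsc g f) ∅ S u η m).card : ℝ) := by
  obtain ⟨c₂, C₂, hc₂, h2⟩ := hLAST k g N r f hf hFu
  refine ⟨c₂, C₂, hc₂, by positivity, ?_⟩
  intro S u Y hSt η m hm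
  have h3 := h2 K pk.L pk.O pk.θ pk.gen S η (by
    intro P hP
    have h4 := hSt.mem.1 hP
    exact ⟨h4.1, h4.2.1, fun hi => hSt.cop P h4.2.1 h4.2.2 hi⟩) m hm
  have h4 := h3.trans (le_card' (B := laS (phi pk) (dsc g f) ∅ S u η m)
    fun Q hQ1 hQp => by
      obtain ⟨hQd, hQn, hQS, hQη⟩ := hQp
      have hQ2 := mem_irrD.1 hQ1
      unfold laS
      rw [Finset.mem_filter]
      refine ⟨hQ1, hQS, hQd, ?_, fun w hw =>
        psi_inert hREP hGRP hSTEP hf pk.gen (good_of_st hSt) hQ2.1 hQ2.2.1 hQS hQd hw hQn⟩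
      rw [Finset.union_empty]
      exact hQη)
  rw [hSt.dg_eq] at h4
  exact h4

theorem A4 (hREP : P_REP) (hGRP : P_GRP) (hCONC : P_CONC) (hf : Fm g N r f)
    (D : k[X]) (hDm : D.Monic) (hDs : Squarefree D)
    (hDc : ∀ P : k[X], Irreducible P → P ∣ D → ¬ P ∣ dsc g f)
    (hphi : phi pk (prD D) (fun P => D / P) = 0) :
    IsCoprime D (dsc g f) ∧ SelZero K (f.scaleRoots D) := by
  refine ⟨?_, ?_⟩
  · by_contra hcop
    have h1 : ¬ IsUnit (EuclideanDomain.gcd D (dsc g f)) := by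
      rwa [EuclideanDomain.gcd_isUnit_iff]
    have h0 : EuclideanDomain.gcd D (dsc g f) ≠ 0 := by
      intro h0
      rw [EuclideanDomain.gcd_eq_zero_iff] at h0
      exact hDm.ne_zero h0.1
    obtain ⟨P, hP, hPd⟩ := WfDvdMonoid.exists_irreducible_factor h1 h0
    exact hDc P hP (hPd.trans (EuclideanDomain.gcd_dvd_left _ _))
      (hPd.trans (EuclideanDomain.gcd_dvd_right _ _))
  · have hG : GoodT g f (prD D) (fun P => D / P) := by
      refine ⟨fun P hP => ((mem_prD hDm.ne_zero).1 hP).1, fun P hP => ((mem_prD hDm.ne_zero).1 hP).2.1,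
        fun P hP h1 => ?_, fun P hP => ?_⟩
      · have h2 := (mem_prD hDm.ne_zero).1 hP
        exact hDc P h2.2.1 h2.2.2 h1
      · have h2 := (mem_prD hDm.ne_zero).1 hP
        exact ndvd_div h2.2.1 hDs h2.2.2
    exact hCONC k K pk.L pk.O g N r f pk.θ hf pk.gen D hDm hDs hDc
      fun α hα => psi_zero hREP hGRP hf pk.gen hG hphi hα

theorem A5 (hAVG : P_AVG) (hf : Fm g N r f) (hFu : Full f) {nrs : k[X] → k[X]}
    (hnr : NRs nrs) :
    ∃ (R : ℕ) (c : ℝ) (N₀ : ℕ), 0 < c ∧ ∀ m ≥ N₀, c * (Nat.card k : ℝ) ^ m ≤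
      ∑ D ∈ ((T_SQF3 k hf.two (dsc g f) hf.fam.sq.ne_zero).1 m).toFinset, (1 / 2 : ℝ) ^ (prD D).card *
        (((prD D).powerset.filter fun T => phi pk (prD D) (uT nrs T) ≤ R).card : ℝ) := by
  obtain ⟨hfin, c, hc, N₀, hcN⟩ := T_SQF3 k hf.two (dsc g f) hf.fam.sq.ne_zero
  obtain ⟨B, hB'⟩ := hAVG k K pk.L pk.O g N r f pk.θ hf hFu pk.gen nrs hnr
  have hB : ∀ m : ℕ, ∑ D ∈ (hfin m).toFinset, (1 / 2 : ℝ) ^ (prD D).card *
      ∑ T ∈ (prD D).powerset, (sz (SelG pk.O K f pk.θ (prD D) (uT nrs T)) : ℝ) ≤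
        B * (Nat.card k : ℝ) ^ m := by
    intro m
    have h := hB' m
    rw [finsum_mem_eq_finite_toFinset_sum _ (hfin m)] at h
    exact h
  set B₀ : ℝ := |B| with hB₀
  have hB₀0 : 0 ≤ B₀ := abs_nonneg _
  obtain ⟨M, hM⟩ := exists_nat_gt (2 * B₀ / c)
  have hM0 : 0 < M := by
    have : (0 : ℝ) < M := lt_of_le_of_lt (by positivity) hM
    exact_mod_cast this
  refine ⟨Nat.log 2 M, c / 2, N₀, by positivity, fun m hN => ?_⟩
  set q : ℝ := (Nat.card k : ℝ) with hq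
  have hq0 : 0 < q := by
    rw [hq]
    exact_mod_cast (Finite.card_pos : 0 < Nat.card k)
  -- the bad pairs
  have h2 : ∑ D ∈ (hfin m).toFinset, (1 / 2 : ℝ) ^ (prD D).card *
      (((prD D).powerset.filter fun T => ¬ phi pk (prD D) (uT nrs T) ≤
        Nat.log 2 M).card : ℝ) ≤ c / 2 * q ^ m := by
    have h3 : ∑ D ∈ (hfin m).toFinset, (1 / 2 : ℝ) ^ (prD D).card *
        ∑ T ∈ (prD D).powerset, (sz (SelG pk.O K f pk.θ (prD D) (uT nrs T)) : ℝ) ≤
          B₀ * q ^ m := by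
      refine (hB m).trans ?_
      have := le_abs_self B
      gcongr
    have h4 : (M : ℝ) * ∑ D ∈ (hfin m).toFinset, (1 / 2 : ℝ) ^ (prD D).card *
        (((prD D).powerset.filter fun T => ¬ phi pk (prD D) (uT nrs T) ≤
          Nat.log 2 M).card : ℝ) ≤ B₀ * q ^ m := by
      refine le_trans ?_ h3
      rw [Finset.mul_sum]
      refine Finset.sum_le_sum fun D hDm => ?_
      rw [mul_left_comm]
      refine mul_le_mul_of_nonneg_left ?_ (by positivity)
      calc (M : ℝ) * (((prD D).powerset.filter fun T => ¬ phi pk (prD D) (uT nrs T) ≤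
          Nat.log 2 M).card : ℝ)
          = ∑ T ∈ (prD D).powerset.filter (fun T => ¬ phi pk (prD D) (uT nrs T) ≤
          Nat.log 2 M), (M : ℝ) := by
            rw [Finset.sum_const, nsmul_eq_mul, mul_comm]
        _ ≤ ∑ T ∈ (prD D).powerset.filter (fun T => ¬ phi pk (prD D) (uT nrs T) ≤
          Nat.log 2 M), (sz (SelG pk.O K f pk.θ (prD D) (uT nrs T)) : ℝ) := by
            refine Finset.sum_le_sum fun T hT => ?_
            have hT2 := (Finset.mem_filter.1 hT).2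
            have hi : M ≤ sz (SelG pk.O K f pk.θ (prD D) (uT nrs T)) := by
              by_contra hcon
              push Not at hcon
              apply hT2
              unfold phi psi
              exact Nat.log_mono_right hcon.le
            exact_mod_cast hi
        _ ≤ _ := Finset.sum_le_sum_of_subset_of_nonneg (Finset.filter_subset _ _)
            fun _ _ _ => by positivity
    have hM1 : (0 : ℝ) < M := by exact_mod_cast hM0
    rw [div_lt_iff₀ hc] at hM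
    have h5 : B₀ * q ^ m ≤ M * (c / 2 * q ^ m) := by
      have : (0 : ℝ) < q ^ m := by positivity
      nlinarith
    exact le_of_mul_le_mul_left (h4.trans h5) hM1
  -- all pairs
  have h3 : ∑ D ∈ (hfin m).toFinset, (1 / 2 : ℝ) ^ (prD D).card *
      (((prD D).powerset.card : ℕ) : ℝ) = ((hfin m).toFinset.card : ℝ) := by
    rw [Finset.card_eq_sum_ones, Nat.cast_sum]
    refine Finset.sum_congr rfl fun D _ => ?_
    rw [Finset.card_powerset]
    push_cast
    rw [← mul_pow]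
    norm_num
  have h4 : ∑ D ∈ (hfin m).toFinset, (1 / 2 : ℝ) ^ (prD D).card *
        (((prD D).powerset.card : ℕ) : ℝ) =
      ∑ D ∈ (hfin m).toFinset, (1 / 2 : ℝ) ^ (prD D).card *
        (((prD D).powerset.filter fun T => phi pk (prD D) (uT nrs T) ≤
          Nat.log 2 M).card : ℝ) +
      ∑ D ∈ (hfin m).toFinset, (1 / 2 : ℝ) ^ (prD D).card *
        (((prD D).powerset.filter fun T => ¬ phi pk (prD D) (uT nrs T) ≤
          Nat.log 2 M).card : ℝ) := by
    rw [← Finset.sum_add_distrib]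
    refine Finset.sum_congr rfl fun D _ => ?_
    rw [← mul_add]
    congr 1
    rw [← Nat.cast_add]
    congr 1
    exact (Finset.card_filter_add_card_filter_not _).symm
  have h5 := hcN m hN
  rw [Set.ncard_eq_toFinset_card _ (hfin m)] at h5
  linarith

end one

/-- **FIN**. -/
theorem T_FIN (hAVG : P_AVG) (hKILL : P_KILL) (hLAST : P_LAST) (hSTEP : P_STEP) (hCLSU : P_CLSU)
    (hCONC : P_CONC) (hREP : P_REP) (hGRP : P_GRP) : P_FIN := by
  intro k _ _ g N r f hf hFu K _ _ _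
  obtain ⟨nrs, hnr⟩ := exists_NRs2 k hf.two
  obtain ⟨pk⟩ := exists_pack k K hf
  obtain ⟨c, hc, N₀, h⟩ := countAll (T' := ∅) (inv_phi pk hREP hGRP hCLSU hf) (by simp) hnr
    ((T_SQF3 k hf.two (dsc g f) hf.fam.sq.ne_zero).1)
    (fun D => IsCoprime D (dsc g f) ∧ SelZero K (f.scaleRoots D))
    (A1 pk hREP hGRP hSTEP hKILL hLAST hf hFu) (A2 pk hREP hGRP hSTEP hLAST hf hFu)
    (fun D hDm hDs hDc _ hphi => A4 pk hREP hGRP hCONC hf D hDm hDs hDc hphi)
    (A5 pk hAVG hf hFu hnr)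
  exact ⟨c, hc, N₀, h⟩

end Run7.h68.TG
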