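import Pool.Agent.Run7.h784.TG.StmA
import Pool.Agent.Run7.h784.TG.SQF3
import Pool.Agent.Run7.h68.TG.Cnt
import Pool.Agent.Run7.h875.TS.Fin2
import Pool.Agent.N352.PJ.Tw
import Pool.Agent.N134.PJ.Irk

/-!
# Project TG, piece FIN (first part)

Adapted from `Run7/h875/TS/Fin1.lean` and `Fin2.lean` (helper875).
-/

set_option autoImplicit false
set_option linter.all false

open Polynomial IsDedekindDomain
open scoped Classical

namespace Run7.h68.TG

open Pool.Agent.N874.PP (Ov Ev Sq1)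
open Pool.Agent.N352.PJ (IsGen Crd LocIm SelZero Fam GoodR Ht dsc FK isGen_adjoinRoot sep_adjoinRoot)
open Run7.h875.TS (chi cd IsPC GSq irrD dg NRs uT sqf prD sqL sz Tr log_le_of log_lt_of stS laS Inv St
  mem_prD mem_irrD prod_prD card_prD ndvd_div sub_card_le le_card' one_le_sqrt_pow)
open Run7.h784.TG

theorem exists_NRs2 (k : Type) [Field k] [Finite k] (h2 : (2 : k) ≠ 0) :
    ∃ g : k[X] → k[X], NRs g := by
  have h : ∀ P : k[X], Irreducible P → ∃ y : k[X], ∀ z : k[X], ¬ P ∣ z ^ 2 - y := by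
    intro P hP
    haveI : Fact (Irreducible P) := ⟨hP⟩
    haveI : Finite (AdjoinRoot P) := by
      haveI : Module.Finite k (AdjoinRoot P) := (AdjoinRoot.powerBasis hP.ne_zero).finite
      exact Module.finite_of_finite k
    haveI := Fintype.ofFinite (AdjoinRoot P)
    have h2' : ringChar (AdjoinRoot P) ≠ 2 := by
      intro h2'
      have h3 : ((2 : ℕ) : AdjoinRoot P) = 0 := by
        rw [← h2']
        exact ringChar.Nat.cast_ringChar
      have h4 : algebraMap k (AdjoinRoot P) 2 = 0 := by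
        rw [map_ofNat]
        exact_mod_cast h3
      exact h2 ((map_eq_zero _).1 h4)
    obtain ⟨y, hy⟩ := FiniteField.exists_nonsquare h2'
    obtain ⟨y, rfl⟩ := AdjoinRoot.mk_surjective y
    refine ⟨y, fun z hz => hy ⟨AdjoinRoot.mk P z, ?_⟩⟩
    rw [← map_mul, eq_comm, AdjoinRoot.mk_eq_mk, ← pow_two]
    exact hz
  choose! g hg using h
  exact ⟨g, hg⟩

section one

variable {k K L O : Type} [Field k] [Finite k] [Field K] [Algebra k[X] K]
  [IsFractionRing k[X] K]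
  [Field L] [Algebra K L] [Algebra k[X] L] [IsScalarTower k[X] K L] [CommRing O]
  [IsDedekindDomain O] [Algebra O L] [IsFractionRing O L] [Algebra k[X] O]
  [IsScalarTower k[X] O L] [IsIntegralClosure O k[X] L] {g N : ℕ} {r : k[X]} {f : k[X][X]} {θ : L}

/-- The rank. -/
noncomputable def psi (O K : Type) {L : Type} [Field k] [Field L] [Algebra k[X] L] [CommRing O]
    [IsDedekindDomain O] [Algebra O L] [IsFractionRing O L] [Algebra k[X] O] [Field K] [Algebra K L]
    (f : k[X][X]) (θ : L) (S : Finset k[X]) (u : k[X] → k[X]) : ℕ :=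
  Nat.log 2 (sz (SelG O K f θ S u))

theorem sz_ne (hREP : P_REP) (hGRP : P_GRP) (hf : Fm g N r f) (h : IsGen g K f θ) {S : Finset k[X]}
    {u : k[X] → k[X]} (hG : GoodT g f S u) : sz (SelG O K f θ S u) ≠ 0 :=
  (hREP k K L O g N r f θ hf h).2 S u hG ((hGRP k K L O g N r f θ hf h).2 S u hG).1

theorem psi_inv (hREP : P_REP) (hGRP : P_GRP) (hCLSU : P_CLSU) (hf : Fm g N r f)
    (h : IsGen g K f θ) {S : Finset k[X]} {u u' : k[X] → k[X]} (hG : GoodT g f S u)
    (hG' : GoodT g f S u') (hc : ∀ P ∈ S, ∃ z : k[X], P ∣ z ^ 2 * u P - u' P) :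
    psi O K f θ S u' ≤ psi O K f θ S u := by
  have hc' : ∀ P ∈ S, ∃ z : k[X], P ∣ z ^ 2 * u' P - u P := by
    intro P hP
    obtain ⟨z, hz⟩ := hc P hP
    have hPi := hG.irr P hP
    have hzP : ¬ P ∣ z := by
      intro h1
      apply hG'.nu P hP
      have h2 : P ∣ z ^ 2 * u P := (dvd_pow h1 two_ne_zero).mul_right _
      have := dvd_sub h2 hz
      simpa using this
    obtain ⟨r, s, hrs⟩ := (hPi.coprime_iff_not_dvd.2 hzP : IsCoprime P z)
    refine ⟨s, ?_⟩
    have e : s ^ 2 * u' P - u P = -(s ^ 2) * (z ^ 2 * u P - u' P) + (s * z + 1) * (s * z - 1) * u P := by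
      ring
    have e2 : s * z - 1 = P * (-r) := by linear_combination hrs
    rw [e, e2]
    exact dvd_add (hz.mul_left _) ⟨(s * z + 1) * (-r) * u P, by ring⟩
  have hle : SelG O K f θ S u' ≤ SelG O K f θ S u := by
    intro α hα
    rw [((hGRP k K L O g N r f θ hf h).2 S u hG).1]
    rw [((hGRP k K L O g N r f θ hf h).2 S u' hG').1] at hα
    exact hCLSU k K L O g N r f θ hf h S u' u hG' hG hc' _ hα
  exact log_le_of hle (sz_ne hREP hGRP hf h hG)

theorem psi_inert (hREP : P_REP) (hGRP : P_GRP) (hSTEP : P_STEP) (hf : Fm g N r f)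
    (h : IsGen g K f θ) {S : Finset k[X]} {u : k[X] → k[X]} (hG : GoodT g f S u) {Q w : k[X]}
    (hQ : Q.Monic) (hQi : Irreducible Q) (hQS : Q ∉ S) (hQd : ¬ Q ∣ dsc g f) (hw : ¬ Q ∣ w)
    (ht : nr O Q = 1) : psi O K f θ (insert Q S) (Function.update u Q w) ≤ psi O K f θ S u := by
  have hs := sz_ne (O := O) hREP hGRP hf h hG
  obtain ⟨-, T, -, -, -, h4, -⟩ := hSTEP k K L O g N r f θ hf h S u hG hs Q hQ hQi hQS hQd w hw
  exact log_le_of (h4 ht) hs

/-- A small element which is not a square. -/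
theorem exists_small (hREP : P_REP) (hGRP : P_GRP) (hf : Fm g N r f) (h : IsGen g K f θ) {C₀ : ℕ}
    (hC : ∀ (S : Finset k[X]) (u : k[X] → k[X]), GoodT g f S u → ∀ α : L, SelC O K f θ S u α →
      ∃ (ρ : L) (z : Fin (2 * g + 1) → k[X]), ρ ≠ 0 ∧ Crd g θ z (α * ρ ^ 2) ∧
        ∀ i, (z i).natDegree ≤ C₀ * (1 + dg S))
    {S : Finset k[X]} {u : k[X] → k[X]} (hG : GoodT g f S u) (hp : psi O K f θ S u ≠ 0) :
    ∃ (α : L) (z : Fin (2 * g + 1) → k[X]), SelC O K f θ S u α ∧ IsSquare (Algebra.norm K α) ∧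
      ¬ IsSquare α ∧ Crd g θ z α ∧ ∀ i, (z i).natDegree ≤ C₀ * (1 + dg S) := by
  have hs := sz_ne (O := O) hREP hGRP hf h hG
  obtain ⟨hg1, hg2⟩ := (hGRP k K L O g N r f θ hf h).2 S u hG
  have h1 : ¬ SelG O K f θ S u ≤ sqL L := by
    intro h1
    apply hp
    unfold psi sz
    rw [Subgroup.relIndex_eq_one.2 h1]
    simp
  obtain ⟨α, hα, hns⟩ := SetLike.not_le_iff_exists.1 h1
  obtain ⟨r, z, hr, hz, hd⟩ := hC S u hG α ((hg1 α).1 hα)
  set β : Lˣ := α * (Units.mk0 r hr) ^ 2 with hβ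
  have hβG : β ∈ SelG O K f θ S u := by
    refine Subgroup.mul_mem _ hα (hg2 ?_)
    exact ⟨Units.mk0 r hr, rfl⟩
  have hβv : (β : L) = α * r ^ 2 := by
    rw [hβ]
    simp
  have hβC := (hg1 β).1 hβG
  refine ⟨β, z, hβC, hβC.nsq, ?_, by rw [hβv]; exact hz, hd⟩
  rintro ⟨y, hy⟩
  apply hns
  have hy0 : y ≠ 0 := by
    rintro rfl
    rw [mul_zero] at hy
    exact β.ne_zero hy
  refine ⟨Units.mk0 y hy0 * (Units.mk0 r hr)⁻¹, ?_⟩
  ext
  rw [powMonoidHom_apply]
  simp only [Units.val_pow_eq_pow_val, Units.val_mul, Units.val_mk0, Units.val_inv_eq_inv_val]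
  rw [mul_pow, inv_pow, pow_two y, ← hy, hβv]
  field_simp

theorem psi_kill (hREP : P_REP) (hGRP : P_GRP) (hSTEP : P_STEP) (hf : Fm g N r f)
    (h : IsGen g K f θ) {S : Finset k[X]} {u : k[X] → k[X]} (hG : GoodT g f S u) {Q w : k[X]}
    (hQ : Q.Monic) (hQi : Irreducible Q) (hQS : Q ∉ S) (hQd : ¬ Q ∣ dsc g f) (hw : ¬ Q ∣ w)
    (ht : nr O Q = 2) {α : L} (hα : SelC O K f θ S u α) (hn : ¬ Tr O Q α) :
    psi O K f θ (insert Q S) (Function.update u Q w) + 1 ≤ psi O K f θ S u := by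
  have hs := sz_ne (O := O) hREP hGRP hf h hG
  obtain ⟨-, T, hT1, hT2, -, -, h5, h6⟩ :=
    hSTEP k K L O g N r f θ hf h S u hG hs Q hQ hQi hQS hQd w hw
  obtain ⟨hg1, hg2⟩ := (hGRP k K L O g N r f θ hf h).2 S u hG
  rw [ht] at h5 h6
  norm_num at h5 h6
  have hnl : ¬ SelG O K f θ S u ≤ T := by
    intro hle
    apply hn
    have h1 : Units.mk0 α hα.ne ∈ SelG O K f θ S u := (hg1 _).2 hα
    exact (hT1 _).1 (hle h1)
  set G := SelG O K f θ S u with hGd
  set G' := SelG O K f θ (insert Q S) (Function.update u Q w) with hGd'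
  -- `2 * sz (G ⊓ T) ≤ sz G`
  have a1 : sz (G ⊓ T) * (G ⊓ T).relIndex G = sz G :=
    Subgroup.relIndex_mul_relIndex _ _ _ (le_inf hg2 hT2) inf_le_left
  have a2 : (G ⊓ T).relIndex G ≠ 1 := by
    intro h2
    exact hnl ((Subgroup.relIndex_eq_one.1 h2).trans inf_le_right)
  have a3 : (G ⊓ T).relIndex G ≠ 0 := by
    intro h3
    rw [h3, mul_zero] at a1
    exact hs a1.symm
  have a4 : sz (G ⊓ T) ≠ 0 := by
    intro h4
    rw [h4, zero_mul] at a1
    exact hs a1.symm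
  have a5 : sz (G ⊓ T) * 2 ≤ sz G := by
    rw [← a1]
    exact Nat.mul_le_mul_left _ (by omega)
  -- so `sz G' ≤ sz (G ⊓ T)`
  have a6 : sz G' * 2 ≤ sz G := by
    have hpos : 0 < sz G := Nat.pos_of_ne_zero hs
    by_contra hcon
    push Not at hcon
    have b1 : sz G * sz G < sz G' * 2 * sz G := Nat.mul_lt_mul_of_pos_right hcon hpos
    have b2 : (sz (G ⊓ T) * 2) * (sz (G ⊓ T) * 2) ≤ sz G * sz G := Nat.mul_le_mul a5 a5
    have b3 : sz G' * 2 * sz G = 2 * (sz G' * sz G) := by ring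
    have b4 : (sz (G ⊓ T) * 2) * (sz (G ⊓ T) * 2) = 2 * (2 * sz (G ⊓ T) ^ 2) := by ring
    omega
  have hs' : sz G' ≠ 0 ∨ sz G' = 0 := (ne_or_eq _ _)
  rcases hs' with hs' | hs'
  · unfold psi
    rw [← hGd, ← hGd']
    calc Nat.log 2 (sz G') + 1 = Nat.log 2 (sz G' * 2) := (Nat.log_mul_base (by norm_num) hs').symm
      _ ≤ _ := Nat.log_mono_right a6
  · unfold psi
    rw [← hGd, ← hGd', hs']
    have : 2 ≤ sz G := by omega
    calc Nat.log 2 0 + 1 = Nat.log 2 2 := by norm_num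
      _ ≤ _ := Nat.log_mono_right this

theorem psi_zero (hREP : P_REP) (hGRP : P_GRP) (hf : Fm g N r f) (h : IsGen g K f θ)
    {S : Finset k[X]} {u : k[X] → k[X]} (hG : GoodT g f S u) (hp : psi O K f θ S u = 0) {α : L}
    (hα : SelC O K f θ S u α) : IsSquare α := by
  have hs := sz_ne (O := O) hREP hGRP hf h hG
  obtain ⟨hg1, hg2⟩ := (hGRP k K L O g N r f θ hf h).2 S u hG
  have h1 : sz (SelG O K f θ S u) = 1 := by
    unfold psi at hp
    rw [Nat.log_eq_zero_iff] at hp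
    rcases hp with hp | hp
    · omega
    · omega
  have h2 := Subgroup.relIndex_eq_one.1 h1
  have h3 : Units.mk0 α hα.ne ∈ SelG O K f θ S u := (hg1 _).2 hα
  obtain ⟨y, hy⟩ := h2 h3
  refine ⟨y, ?_⟩
  have h4 := congrArg Units.val hy
  rw [powMonoidHom_apply] at h4
  simp only [Units.val_pow_eq_pow_val, Units.val_mk0] at h4
  rw [← h4, pow_two]

end one

/-! ### The field and its ring of integers -/

/-- The data of the curve. -/
structure Pack (k K : Type) [Field k] [Field K] [Algebra k[X] K] (g : ℕ) (f : k[X][X]) where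
  L : Type
  O : Type
  [i1 : Field L]
  [i2 : Algebra K L]
  [i3 : Algebra k[X] L]
  [i4 : IsScalarTower k[X] K L]
  [i5 : CommRing O]
  [i6 : IsDedekindDomain O]
  [i7 : Algebra O L]
  [i8 : IsFractionRing O L]
  [i9 : Algebra k[X] O]
  [i10 : IsScalarTower k[X] O L]
  [i11 : IsIntegralClosure O k[X] L]
  θ : L
  gen : IsGen g K f θ

attribute [instance] Pack.i1 Pack.i2 Pack.i3 Pack.i4 Pack.i5 Pack.i6 Pack.i7 Pack.i8 Pack.i9
  Pack.i10 Pack.i11

theorem exists_pack (k K : Type) [Field k] [Finite k] [Field K] [Algebra k[X] K]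
    [IsFractionRing k[X] K] {g N : ℕ} {r : k[X]} {f : k[X][X]} (hf : Fm g N r f) :
    Nonempty (Pack k K g f) := by
  have hIRK := Pool.Agent.N134.PJ.irk
  have hF := hf.fam
  have hm := hF.ht.mon
  have hd := hF.ht.deg
  haveI hfact : Fact (Irreducible (FK K f)) :=
    ⟨(hIRK g k K f N r 1 hF.ht hf.gr hF.inf one_ne_zero).1⟩
  have hsep : (FK K f).Separable :=
    ((hIRK g k K f N r 1 hF.ht hf.gr hF.inf one_ne_zero).2.2 hF.sq.ne_zero).1
  have hc := isGen_adjoinRoot (K := K) hm hd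
  have hmK : (FK K f).Monic := hm.map _
  haveI : FiniteDimensional K (AdjoinRoot (FK K f)) := hmK.finite_adjoinRoot
  haveI : Algebra.IsSeparable K (AdjoinRoot (FK K f)) := sep_adjoinRoot hsep
  haveI : IsDedekindDomain (integralClosure k[X] (AdjoinRoot (FK K f))) :=
    integralClosure.isDedekindDomain k[X] K (AdjoinRoot (FK K f))
  haveI : IsFractionRing (integralClosure k[X] (AdjoinRoot (FK K f))) (AdjoinRoot (FK K f)) :=
    integralClosure.isFractionRing_of_finite_extension K (AdjoinRoot (FK K f))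
  exact ⟨{ L := AdjoinRoot (FK K f), O := integralClosure k[X] (AdjoinRoot (FK K f)),
           θ := AdjoinRoot.root (FK K f), gen := hc }⟩

end Run7.h68.TG
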